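import Mathlib
import Pool.Agent.Q80.LagTest

/-!
# `ln (k + 2) / k!` is a multiplier sequence
-/

open Polynomial MeasureTheory Set Filter

namespace Pool.Agent.Results.MP_13c559_an.LogSequence

open Q80.RR

/-- `T[x^k] = ln (k+2) / k! * x^k` -/
noncomputable def T (p : ℝ[X]) : ℝ[X] :=
  ∑ k ∈ Finset.range (p.natDegree + 1),
    C (Real.log ((k : ℝ) + 2) / (k.factorial : ℝ) * p.coeff k) * X ^ k

lemma good_block {t : ℝ} (ht : 1 ≤ t) : Good (fun k : ℕ => ((k : ℝ) + 1) / (1 + ((k : ℝ) + 1) / t)) := by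
  have hint : ∀ k : ℕ, Continuous (fun r : ℝ => t * r ^ (t - 1) * (1 - r ^ (k + 1))) := by
    intro k
    have h1 : Continuous (fun r : ℝ => r ^ (t - 1)) :=
      Real.continuous_rpow_const (by linarith)
    fun_prop
  have h1 := good_integral (μ := volume.restrict (Ioc (0 : ℝ) 1))
    (f := fun r k => t * r ^ (t - 1) * (1 - r ^ (k + 1))) (fun k =>
      ((hint k).integrableOn_Icc (a := 0) (b := 1)).mono_set Ioc_subset_Icc_self) (by
      filter_upwards [ae_restrict_mem measurableSet_Ioc] with r hr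
      exact good_const_mul (good_sub_pow ⟨hr.1.le, hr.2⟩)
        (mul_nonneg (by linarith) (Real.rpow_nonneg hr.1.le _)))
  have h2 : ∀ k : ℕ, ∫ r in Ioc (0 : ℝ) 1, t * r ^ (t - 1) * (1 - r ^ (k + 1)) =
      ((k : ℝ) + 1) / (k + 1 + t) := by
    intro k
    rw [← intervalIntegral.integral_of_le zero_le_one]
    have hd : ∀ r ∈ Ioo (0 : ℝ) 1, HasDerivAt (fun r : ℝ => r ^ t - t / (t + (k + 1)) *
        (r ^ t * r ^ (k + 1))) (t * r ^ (t - 1) * (1 - r ^ (k + 1))) r := by
      intro r hr
      have e1 := Real.hasDerivAt_rpow_const (x := r) (p := t) (Or.inl hr.1.ne')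
      have e2 := hasDerivAt_pow (k + 1) r
      have e3 := e1.sub ((e1.mul e2).const_mul (t / (t + (k + 1))))
      refine e3.congr_deriv ?_
      have h4 : r ^ t = r ^ (t - 1) * r := by
        rw [Real.rpow_sub_one hr.1.ne']; field_simp [hr.1.ne']
      have h5 : t + ((k : ℝ) + 1) ≠ 0 := by positivity
      rw [h4]
      simp only [Nat.add_sub_cancel]
      push_cast
      field_simp
      ring
    rw [intervalIntegral.integral_eq_sub_of_hasDerivAt_of_le zero_le_one _ hd
      ((hint k).intervalIntegrable _ _)]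
    · rw [Real.one_rpow, Real.zero_rpow (by linarith)]
      have h5 : t + ((k : ℝ) + 1) ≠ 0 := by positivity
      have h6 : (k : ℝ) + 1 + t ≠ 0 := by positivity
      simp only [one_pow]
      field_simp
      ring
    · apply Continuous.continuousOn
      have h1 : Continuous (fun r : ℝ => r ^ t) :=
        Real.continuous_rpow_const (by linarith)
      fun_prop
  have h3 := good_const_mul h1 (c := t) (by linarith)
  have h4 : (fun k : ℕ => ((k : ℝ) + 1) / (1 + ((k : ℝ) + 1) / t)) = fun k : ℕ =>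
      t * ∫ r in Ioc (0 : ℝ) 1, t * r ^ (t - 1) * (1 - r ^ (k + 1)) := by
    funext k
    rw [h2]
    have h5 : t ≠ 0 := by positivity
    field_simp
    ring
  rw [h4]
  exact h3

lemma good_log : Good (fun k : ℕ => Real.log ((k : ℝ) + 2)) := by
  have hpos : ∀ (k : ℕ) (v : ℝ), v ∈ Icc (0 : ℝ) 1 → 0 < 1 + ((k : ℝ) + 1) * v := by
    intro k v hv
    have := hv.1
    positivity
  have hcont : ∀ k : ℕ, ContinuousOn (fun v : ℝ => ((k : ℝ) + 1) / (1 + ((k : ℝ) + 1) * v))
      (Icc 0 1) := by
    intro k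
    apply ContinuousOn.div
    · fun_prop
    · fun_prop
    · intro v hv; exact (hpos k v hv).ne'
  have h1 := good_integral (μ := volume.restrict (Ioc (0 : ℝ) 1))
    (f := fun v (k : ℕ) => ((k : ℝ) + 1) / (1 + ((k : ℝ) + 1) * v)) (fun k =>
      ((hcont k).integrableOn_Icc).mono_set Ioc_subset_Icc_self) (by
      filter_upwards [ae_restrict_mem measurableSet_Ioc] with v hv
      have h2 := good_block (t := v⁻¹) ((one_le_inv₀ hv.1).2 hv.2)
      simp only [div_inv_eq_mul] at h2
      exact h2)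
  have h2 : ∀ k : ℕ, ∫ v in Ioc (0 : ℝ) 1, ((k : ℝ) + 1) / (1 + ((k : ℝ) + 1) * v) =
      Real.log ((k : ℝ) + 2) := by
    intro k
    rw [← intervalIntegral.integral_of_le zero_le_one]
    have hd : ∀ v ∈ uIcc (0 : ℝ) 1, HasDerivAt (fun v : ℝ => Real.log (1 + ((k : ℝ) + 1) * v))
        (((k : ℝ) + 1) / (1 + ((k : ℝ) + 1) * v)) v := by
      intro v hv
      rw [uIcc_of_le zero_le_one] at hv
      have e1 : HasDerivAt (fun v : ℝ => 1 + ((k : ℝ) + 1) * v) ((k : ℝ) + 1) v := by
        have := ((hasDerivAt_id v).const_mul ((k : ℝ) + 1)).const_add 1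
        simpa using this
      exact e1.log (hpos k v hv).ne'
    rw [intervalIntegral.integral_eq_sub_of_hasDerivAt hd]
    · simp only [mul_one, mul_zero, add_zero, Real.log_one, sub_zero]
      congr 1; ring
    · apply ContinuousOn.intervalIntegrable
      rw [uIcc_of_le zero_le_one]
      exact hcont k
  simp only [h2] at h1
  exact h1

lemma T_eq (p : ℝ[X]) : T p = hm (fun k => Real.log ((k : ℝ) + 2) / (k.factorial : ℝ)) p := by
  unfold T hm
  apply Finset.sum_congr rfl
  intro k _
  rw [C_mul_X_pow_eq_monomial]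

/-- `(ln (k+2) / k!)` is a multiplier sequence: `T` maps a nonzero real polynomial with only real
zeros to a nonzero real polynomial with only real zeros. -/
theorem result : ∀ p : ℝ[X], p ≠ 0 → (∀ z : ℂ, aeval z p = 0 → z.im = 0) →
    T p ≠ 0 ∧ ∀ z : ℂ, aeval z (T p) = 0 → z.im = 0 := by
  intro p hp0 hp
  have hlog : ∀ k : ℕ, 0 < Real.log ((k : ℝ) + 2) := by
    intro k
    apply Real.log_pos
    have : (0 : ℝ) ≤ k := Nat.cast_nonneg k
    linarith
  have h1 : MS (fun k => Real.log ((k : ℝ) + 2) / (k.factorial : ℝ)) :=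
    ms_of_good good_log fun k => (hlog k).le
  have hne : T p ≠ 0 := by
    intro h
    have h2 : (T p).coeff p.natDegree = 0 := by rw [h, coeff_zero]
    rw [T_eq, coeff_hm] at h2
    rcases mul_eq_zero.1 h2 with h3 | h3
    · have := hlog p.natDegree
      have h4 : (p.natDegree.factorial : ℝ) ≠ 0 := by positivity
      rcases div_eq_zero_iff.1 h3 with h5 | h5
      · linarith
      · exact h4 h5
    · exact hp0 (leadingCoeff_eq_zero.1 h3)
  refine ⟨hne, ?_⟩
  have h3 := h1 p (Or.inr hp)
  rw [← T_eq] at h3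
  exact h3.resolve_left hne

end Pool.Agent.Results.MP_13c559_an.LogSequence
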